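import Mathlib
import Pool.Agent.H961R3.CK

open Polynomial

namespace Pool.Agent.Results.MP_c2475b_nt.ExactDegree

/-- The naive height of an integer polynomial: the maximum of the absolute values of its
coefficients. -/
def naiveHeight (P : ℤ[X]) : ℕ := P.support.sup fun i => (P.coeff i).natAbs

/-- For arbitrarily large real `X ≥ 1` there is an irreducible integer polynomial `P` of degree
exactly `n` with `H(P) ≤ X` and `0 < |P(ζ)| ≤ X^(-w)`. -/
def SolvableArbitrarilyLarge (n : ℕ) (ζ w : ℝ) : Prop :=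
  ∀ X₀ : ℝ, ∃ X : ℝ, X₀ ≤ X ∧ 1 ≤ X ∧ ∃ P : ℤ[X], P.natDegree = n ∧ Irreducible P ∧
    (naiveHeight P : ℝ) ≤ X ∧ 0 < |aeval ζ P| ∧ |aeval ζ P| ≤ X ^ (-w)

/-- The exponent `w_{=n}(ζ)`, as an extended real number. -/
noncomputable def wExact (n : ℕ) (ζ : ℝ) : EReal :=
  sSup {w : EReal | ∃ r : ℝ, w = (r : EReal) ∧ SolvableArbitrarilyLarge n ζ r}

lemma naiveHeight_le (P : ℤ[X]) (X : ℝ) (hX : 0 ≤ X) (h : ∀ i, |(P.coeff i : ℝ)| ≤ X) :
    (naiveHeight P : ℝ) ≤ X := by
  have h1 : naiveHeight P ≤ ⌊X⌋₊ := by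
    unfold naiveHeight
    apply Finset.sup_le
    intro i _
    rw [Nat.le_floor_iff hX]
    have h2 := h i
    have h3 : (((P.coeff i).natAbs : ℕ) : ℝ) = |(P.coeff i : ℝ)| := by
      rw [Nat.cast_natAbs]; push_cast; rfl
    rw [h3]; exact h2
  have h4 : (naiveHeight P : ℝ) ≤ (⌊X⌋₊ : ℝ) := by exact_mod_cast h1
  exact h4.trans (Nat.floor_le hX)

lemma irreducible_primPart (n : ℕ) (hn : 1 ≤ n) (F : ℤ[X]) (hF : F.natDegree = n)
    (hirr : ∀ A A' : ℤ[X], A * A' = F → A.natDegree = 0 ∨ A'.natDegree = 0) :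
    Irreducible F.primPart := by
  have hdeg : F.primPart.natDegree = n := by rw [natDegree_primPart, hF]
  have hprim := isPrimitive_primPart F
  have hconst : ∀ a b : ℤ[X], F.primPart = a * b → a.natDegree = 0 → IsUnit a := by
    intro a b hab ha
    rw [natDegree_eq_zero] at ha
    obtain ⟨k, rfl⟩ := ha
    exact (hprim k ⟨b, hab⟩).map C
  constructor
  · intro hu
    have := natDegree_eq_zero_of_isUnit hu
    omega
  · intro a b hab
    have hF' : (C F.content * a) * b = F := by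
      rw [mul_assoc, ← hab]
      exact (eq_C_content_mul_primPart F).symm
    rcases hirr _ _ hF' with h | h
    · left
      apply hconst a b hab
      have hc : F.content ≠ 0 := by
        intro h0
        rw [content_eq_zero_iff] at h0
        rw [h0, natDegree_zero] at hF; omega
      rwa [natDegree_C_mul hc] at h
    · right
      exact hconst b a (by rw [hab, mul_comm]) h

theorem main_real (n : ℕ) (hn : 1 ≤ n) (ζ : ℝ) (hζ : Transcendental ℤ ζ) (w : ℝ) (hw0 : 0 ≤ w)
    (hw : w < n) : SolvableArbitrarilyLarge n ζ w := by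
  have hnR : (1 : ℝ) ≤ n := by exact_mod_cast hn
  obtain ⟨ε, hε, hε1, hε2⟩ : ∃ ε : ℝ, 0 < ε ∧ ε < 1 ∧ ε * (2 + w) ≤ (n - w) / 2 := by
    refine ⟨min (1 / 2) ((n - w) / (2 * (2 + w))), ?_, ?_, ?_⟩
    · apply lt_min (by norm_num)
      apply div_pos <;> linarith
    · exact lt_of_le_of_lt (min_le_left _ _) (by norm_num)
    · have h1 : min (1 / 2) ((n - w) / (2 * (2 + w))) ≤ (n - w) / (2 * (2 + w)) := min_le_right _ _
      calc min (1 / 2) ((n - w) / (2 * (2 + w))) * (2 + w)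
          ≤ (n - w) / (2 * (2 + w)) * (2 + w) := mul_le_mul_of_nonneg_right h1 (by linarith)
        _ = (n - w) / 2 := by
          have : (2 + w) ≠ 0 := by linarith
          field_simp
  obtain ⟨C0, hC0, hstep⟩ := Pool.Agent.H961R3.C.step n hn ζ hζ ε hε hε1
  intro X₀
  set e : ℝ := (n - w) / 2 with he
  have he0 : 0 < e := by rw [he]; linarith
  obtain ⟨K1, hK1⟩ : ∃ K1 : ℝ, ∀ H : ℝ, K1 ≤ H → C0 ^ (1 + w) ≤ H ^ e := by
    have := (tendsto_rpow_atTop he0).eventually_ge_atTop (C0 ^ (1 + w))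
    exact Filter.eventually_atTop.1 this
  obtain ⟨H, hHK, hH1, F, hFd, hFirr, hFc, hFv⟩ := hstep (max X₀ K1)
  have hHX : X₀ ≤ H := (le_max_left _ _).trans hHK
  have hHK1 : C0 ^ (1 + w) ≤ H ^ e := hK1 H ((le_max_right _ _).trans hHK)
  have hHpos : 0 < H := by linarith
  have hC0pos : 0 < C0 := by linarith
  set X : ℝ := C0 * H ^ (1 + ε) with hX
  have hHle : H ≤ X := by
    have h1 : H ^ (1 : ℝ) ≤ H ^ (1 + ε) := Real.rpow_le_rpow_of_exponent_le hH1 (by linarith)
    rw [Real.rpow_one] at h1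
    have h2 : 0 ≤ H ^ (1 + ε) := Real.rpow_nonneg hHpos.le _
    rw [hX]; nlinarith
  have hXpos : 0 < X := by linarith
  have hF0 : F ≠ 0 := by
    rintro rfl
    rw [natDegree_zero] at hFd; omega
  have hc0 : F.content ≠ 0 := by
    intro h0
    rw [content_eq_zero_iff] at h0; exact hF0 h0
  have hc1 : (1 : ℝ) ≤ |(F.content : ℝ)| := by
    exact_mod_cast Int.one_le_abs hc0
  have hirr := irreducible_primPart n hn F hFd hFirr
  have hFe := eq_C_content_mul_primPart F
  have hval : |aeval ζ F.primPart| ≤ |aeval ζ F| := by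
    have h1 : aeval ζ F = (F.content : ℝ) * aeval ζ F.primPart := by
      conv_lhs => rw [hFe]
      rw [map_mul, aeval_C]
      simp
    rw [h1, abs_mul]
    have := abs_nonneg (aeval ζ F.primPart)
    nlinarith
  refine ⟨X, hHX.trans hHle, hH1.trans hHle, F.primPart, ?_, hirr, ?_, ?_, ?_⟩
  · rw [natDegree_primPart, hFd]
  · apply naiveHeight_le _ _ hXpos.le
    intro i
    refine le_trans ?_ (hFc i)
    have h1 : F.coeff i = F.content * F.primPart.coeff i := by
      conv_lhs => rw [hFe]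
      rw [coeff_C_mul]
    rw [h1]
    push_cast
    rw [abs_mul]
    have := abs_nonneg (F.primPart.coeff i : ℝ)
    nlinarith
  · exact abs_pos.2 (Pool.Agent.H961R3.C.aeval_ne ζ hζ _ hirr.ne_zero)
  · refine hval.trans (hFv.trans ?_)
    have h1 : X ^ (-w) = C0 ^ (-w) * H ^ (-(w * (1 + ε))) := by
      rw [hX, Real.mul_rpow hC0pos.le (Real.rpow_nonneg hHpos.le _), ← Real.rpow_mul hHpos.le]
      congr 2; ring
    rw [h1]
    have h2 : C0 = C0 ^ (-w) * C0 ^ (1 + w) := by
      rw [← Real.rpow_add hC0pos]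
      have : -w + (1 + w) = 1 := by ring
      rw [this, Real.rpow_one]
    have h3 : C0 ≤ C0 ^ (-w) * H ^ e := by
      calc C0 = C0 ^ (-w) * C0 ^ (1 + w) := h2
        _ ≤ C0 ^ (-w) * H ^ e := mul_le_mul_of_nonneg_left hHK1 (Real.rpow_nonneg hC0pos.le _)
    calc C0 * H ^ (-((n : ℝ) - 2 * ε)) ≤ (C0 ^ (-w) * H ^ e) * H ^ (-((n : ℝ) - 2 * ε)) :=
          mul_le_mul_of_nonneg_right h3 (Real.rpow_nonneg hHpos.le _)
      _ = C0 ^ (-w) * H ^ (e + (-((n : ℝ) - 2 * ε))) := by
          rw [mul_assoc, ← Real.rpow_add hHpos]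
      _ ≤ C0 ^ (-w) * H ^ (-(w * (1 + ε))) := by
          apply mul_le_mul_of_nonneg_left _ (Real.rpow_nonneg hC0pos.le _)
          apply Real.rpow_le_rpow_of_exponent_le hH1
          have h5 : ε * (2 + w) ≤ e := hε2
          have h6 : 2 * e = n - w := by rw [he]; ring
          nlinarith

/-- For every `n ≥ 1` and every transcendental real `ζ`, one has `w_{=n}(ζ) ≥ n`. -/
theorem result : ∀ n : ℕ, 1 ≤ n → ∀ ζ : ℝ, Transcendental ℚ ζ → (n : EReal) ≤ wExact n ζ := by
  intro n hn ζ hζ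
  have hζ' : Transcendental ℤ ζ := by
    intro h
    exact hζ (h.extendScalars (RingHom.injective_int (algebraMap ℤ ℚ)))
  by_contra hlt
  push Not at hlt
  obtain ⟨r, hr1, hr2⟩ := EReal.lt_iff_exists_real_btwn.1 hlt
  have hr2' : r < n := by
    have : (r : EReal) < ((n : ℝ) : EReal) := by
      refine lt_of_lt_of_eq hr2 ?_
      norm_cast
    exact_mod_cast this
  have hn0 : (0 : ℝ) < n := by exact_mod_cast hn
  have h1 := main_real n hn ζ hζ' (max r 0) (le_max_right _ _) (max_lt hr2' hn0)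
  have h2 : ((max r 0 : ℝ) : EReal) ≤ wExact n ζ := le_sSup ⟨_, rfl, h1⟩
  have h3 : (r : EReal) ≤ ((max r 0 : ℝ) : EReal) := by
    exact_mod_cast le_max_left _ _
  exact absurd (lt_of_lt_of_le hr1 (h3.trans h2)) (lt_irrefl _)

end Pool.Agent.Results.MP_c2475b_nt.ExactDegree
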